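import Pool.Agent.Q101.Modular

set_option autoImplicit false

open Filter Topology
open scoped ENNReal

namespace Pool.Agent.Results.MP_106cb8_an.NotRegular

open Q101.Modular

/-- A convex, left-continuous modular. -/
structure IsConvexModular {X : Type} [AddCommGroup X] [Module ℝ X] (ρ : X → ℝ≥0∞) : Prop where
  eq_zero_iff : ∀ u, ρ u = 0 ↔ u = 0
  smul_of_abs_eq_one : ∀ (a : ℝ) (u : X), |a| = 1 → ρ (a • u) = ρ u
  convex : ∀ (a : ℝ) (u v : X), 0 ≤ a → a ≤ 1 →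
    ρ (a • u + (1 - a) • v) ≤ ENNReal.ofReal a * ρ u + ENNReal.ofReal (1 - a) * ρ v
  left_cont : ∀ (u : X) (l₀ : ℝ), 0 < l₀ →
    Tendsto (fun l : ℝ => ρ (l • u)) (𝓝[<] l₀) (𝓝 (ρ (l₀ • u)))

/-- The Fatou property. -/
def HasFatou {X : Type} [AddCommGroup X] [Module ℝ X] (ρ : X → ℝ≥0∞) : Prop :=
  ∀ (u : ℕ → Sp ρ) (x : Sp ρ), Conv u x → ρ x ≤ liminf (fun n => ρ (u n)) atTop

section Aux

variable {p : ℕ → ℝ}

theorem rho_lsc : LowerSemicontinuous (rho p) := by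
  unfold rho
  refine lowerSemicontinuous_tsum fun j => Continuous.lowerSemicontinuous ?_
  exact ENNReal.continuous_rpow_const.comp (continuous_enorm.comp (continuous_apply j))

theorem rho_mono (hp : ∀ n, 1 ≤ p n) {a b : ℕ → ℝ} (h : ∀ j, ‖a j‖ₑ ≤ ‖b j‖ₑ) :
    rho p a ≤ rho p b :=
  ENNReal.tsum_le_tsum fun j => ENNReal.rpow_le_rpow (h j) (by linarith [hp j])

theorem rho_convex (hp : ∀ n, 1 ≤ p n) (a : ℝ) (u v : ℕ → ℝ) (ha0 : 0 ≤ a) (ha1 : a ≤ 1) :
    rho p (a • u + (1 - a) • v) ≤ ENNReal.ofReal a * rho p u + ENNReal.ofReal (1 - a) * rho p v := by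
  unfold rho
  rw [← ENNReal.tsum_mul_left, ← ENNReal.tsum_mul_left, ← ENNReal.tsum_add]
  refine ENNReal.tsum_le_tsum fun j => ?_
  have h1 : ‖(a • u + (1 - a) • v) j‖ₑ ≤
      ENNReal.ofReal a * ‖u j‖ₑ + ENNReal.ofReal (1 - a) * ‖v j‖ₑ := by
    rw [Pi.add_apply, Pi.smul_apply, Pi.smul_apply, smul_eq_mul, smul_eq_mul]
    refine (enorm_add_le _ _).trans (le_of_eq ?_)
    rw [enorm_mul, enorm_mul, Real.enorm_of_nonneg ha0, Real.enorm_of_nonneg (sub_nonneg.2 ha1)]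
  refine (ENNReal.rpow_le_rpow h1 (by linarith [hp j])).trans ?_
  refine ENNReal.rpow_arith_mean_le_arith_mean2_rpow _ _ _ _ ?_ (hp j)
  rw [← ENNReal.ofReal_add ha0 (by linarith)]
  norm_num

theorem rho_fatou (hp : ∀ n, 1 ≤ p n) : HasFatou (rho p) := by
  intro u x hu
  have hz : Tendsto (fun n => rho p ((u n : ℕ → ℝ) - (x : ℕ → ℝ))) atTop (𝓝 0) := hu
  have h1 : Tendsto (fun n => (u n : ℕ → ℝ)) atTop (𝓝 (x : ℕ → ℝ)) := by
    rw [tendsto_pi_nhds]
    intro j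
    rw [Metric.tendsto_atTop]
    intro ε hε
    have h2 : ∀ᶠ n in atTop, rho p ((u n : ℕ → ℝ) - (x : ℕ → ℝ)) < ENNReal.ofReal ε ^ p j :=
      hz.eventually (gt_mem_nhds (ENNReal.rpow_pos (by simpa using hε) (by simp)))
    obtain ⟨N, hN⟩ := eventually_atTop.1 h2
    refine ⟨N, fun n hn => ?_⟩
    rw [Real.dist_eq]
    exact coord_lt hp hε (hN n hn)
  have h3 := (rho_lsc (p := p)).lowerSemicontinuousAt (x : ℕ → ℝ)
  refine h3.le_liminf.trans ?_
  have h4 : liminf (fun n => rho p (u n)) atTop =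
      liminf (rho p) (Filter.map (fun n => (u n : ℕ → ℝ)) atTop) := rfl
  rw [h4]
  exact liminf_le_liminf_of_le h1

end Aux

/-- There is a convex, left-continuous modular on a real vector space, even with the Fatou
property, whose modular topology is not regular. -/
theorem result : ∃ ρ : (ℕ → ℝ) → ℝ≥0∞, IsConvexModular ρ ∧ HasFatou ρ ∧
    ¬ @RegularSpace (Sp ρ) (top ρ) := by
  have hp : ∀ n : ℕ, (1 : ℝ) ≤ (fun n : ℕ => (n : ℝ) + 1) n := fun n => by
    have : (0 : ℝ) ≤ n := n.cast_nonneg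
    simp
  refine ⟨rho fun n : ℕ => (n : ℝ) + 1, ⟨fun u => ⟨rho_eq_zero hp, ?_⟩, ?_, fun a u v h0 h1 =>
    rho_convex hp a u v h0 h1, ?_⟩, rho_fatou hp, not_regular_of_unbounded hp fun C => ?_⟩
  · rintro rfl
    rw [rho, ENNReal.tsum_eq_zero]
    intro j
    rw [Pi.zero_apply, enorm_zero, ENNReal.zero_rpow_of_pos (by linarith [hp j])]
  · intro a u ha
    unfold rho
    congr 1
    funext j
    rw [Pi.smul_apply, smul_eq_mul, enorm_mul]
    have : ‖a‖ₑ = 1 := by rw [← ofReal_norm, Real.norm_eq_abs, ha, ENNReal.ofReal_one]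
    rw [this, one_mul]
  · intro u l₀ hl₀
    refine tendsto_order.2 ⟨fun b hb => ?_, fun b hb => ?_⟩
    · have hc : Continuous fun l : ℝ => l • u := continuous_id.smul continuous_const
      exact (hc.tendsto l₀ |>.mono_left nhdsWithin_le_nhds).eventually (rho_lsc _ _ hb)
    · have h1 : ∀ᶠ l in 𝓝[<] l₀, 0 < l :=
        nhdsWithin_le_nhds (lt_mem_nhds hl₀)
      filter_upwards [h1, self_mem_nhdsWithin] with l hl0 hl1
      refine lt_of_le_of_lt (rho_mono hp fun j => ?_) hb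
      rw [Pi.smul_apply, Pi.smul_apply, smul_eq_mul, smul_eq_mul, enorm_mul, enorm_mul]
      gcongr
      rw [Real.enorm_of_nonneg hl0.le, Real.enorm_of_nonneg hl₀.le]
      exact ENNReal.ofReal_le_ofReal (le_of_lt hl1)
  · obtain ⟨n, hn⟩ := exists_nat_gt C
    exact ⟨n, by simpa using hn.trans (lt_add_one _)⟩

end Pool.Agent.Results.MP_106cb8_an.NotRegular
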